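import Mathlib

set_option autoImplicit false

/-!
# Every periodic billiard orbit in the regular tetrahedron has an even number of bounces

Proof.  Suppose that a trajectory returns to its initial point with its initial velocity after an
odd number `n` of bounces.  The product `R` of the `n` linear reflections is an orthogonal map of
determinant `-1` with a fixed vector, hence of trace `1`.  In suitable orthonormal coordinates the
reflection in the `i`-th face is `1 - (2/3) u_i u_i^T`, with `u_i` one of the vectors `(1,1,1)`,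
`(1,-1,-1)`, `(-1,1,-1)`, `(-1,-1,1)`; so `3^n R` is an integer matrix, which is modulo `3` a
product of the matrices `u_i u_i^T`.  As `u_i ⬝ u_j = -1` for `i ≠ j` and consecutive faces (also
cyclically) are different, its trace is `± 1` modulo `3`.  But the trace of `3^n R` is `3^n`.
-/

open Matrix

namespace Pool.Agent.Results.MP_aceab8_an.EvenNumberOfBounces

/-- Euclidean 3-space. -/
abbrev E3 := EuclideanSpace ℝ (Fin 3)

/-- `p 0`, `p 1`, `p 2`, `p 3` are the vertices of a regular tetrahedron: all the mutual distances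
are equal (and positive). -/
def IsRegularTetrahedron (p : Fin 4 → E3) : Prop :=
  ∃ a : ℝ, 0 < a ∧ ∀ i j, i ≠ j → dist (p i) (p j) = a

/-- The relative interior of the face opposite to the vertex `p i`: the convex combinations of the
other three vertices with positive coefficients. -/
def faceInterior (p : Fin 4 → E3) (i : Fin 4) : Set E3 :=
  {x | ∃ w : Fin 4 → ℝ, w i = 0 ∧ (∀ j, j ≠ i → 0 < w j) ∧ ∑ j, w j = 1 ∧ x = ∑ j, w j • p j}

/-- `n` is a unit normal of the face opposite to the vertex `p i`. -/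
def IsUnitNormal (p : Fin 4 → E3) (i : Fin 4) (n : E3) : Prop :=
  ‖n‖ = 1 ∧ ∀ j k, j ≠ i → k ≠ i → inner ℝ n (p j - p k) = 0

/-- A billiard trajectory in the tetrahedron with vertices `p`: the `k`-th bounce is at the point
`q k` of the relative interior of the face number `f k`, after it the particle has the unit velocity
`v k` and moves along a straight segment to the next bounce, where the velocity is reflected in the
face. (The segments lie in the tetrahedron because it is convex.) -/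
structure IsTrajectory (p : Fin 4 → E3) (f : ℕ → Fin 4) (q v : ℕ → E3) : Prop where
  bounce : ∀ k, q k ∈ faceInterior p (f k)
  unit : ∀ k, ‖v k‖ = 1
  straight : ∀ k, ∃ t : ℝ, 0 < t ∧ q (k + 1) = q k + t • v k
  reflect : ∀ k n, IsUnitNormal p (f (k + 1)) n → v (k + 1) = v k - (2 * inner ℝ (v k) n) • n

/-! ### The matrices -/

/-- The four vectors `u_i`. -/
def uu : Fin 4 → Fin 3 → ℤ := ![![1, 1, 1], ![1, -1, -1], ![-1, 1, -1], ![-1, -1, 1]]

/-- Three times the reflection, an integer matrix. -/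
def C (i : Fin 4) : Matrix (Fin 3) (Fin 3) ℤ :=
  Matrix.of fun j k => (if j = k then 3 else 0) - 2 * (uu i j * uu i k)

/-- The reflection `1 - (2/3) u u^T`. -/
noncomputable def B (i : Fin 4) : Matrix (Fin 3) (Fin 3) ℝ := (1 / 3 : ℝ) • (C i).map (Int.cast)

/-- The product of the first `n` matrices (`g 0` is applied first). -/
def Cp (g : ℕ → Fin 4) : ℕ → Matrix (Fin 3) (Fin 3) ℤ
  | 0 => 1
  | n + 1 => C (g n) * Cp g n

noncomputable def Bp (g : ℕ → Fin 4) : ℕ → Matrix (Fin 3) (Fin 3) ℝ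
  | 0 => 1
  | n + 1 => B (g n) * Bp g n

theorem map_mul_int (X Y : Matrix (Fin 3) (Fin 3) ℤ) :
    (X * Y).map (Int.cast : ℤ → ℝ) = X.map Int.cast * Y.map Int.cast := by
  ext i j
  simp [Matrix.mul_apply]

theorem Bp_eq (g : ℕ → Fin 4) (n : ℕ) :
    (3 : ℝ) ^ n • Bp g n = (Cp g n).map Int.cast := by
  induction n with
  | zero =>
    ext i j
    simp only [Bp, Cp, pow_zero, one_smul, Matrix.map_apply, Matrix.one_apply]
    split_ifs <;> simp
  | succ n ih =>
    rw [Bp, Cp, map_mul_int, ← ih, B, Matrix.smul_mul, Matrix.mul_smul, smul_smul, pow_succ]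
    congr 1
    ring

theorem B_symm (i : Fin 4) : (B i)ᵀ = B i := by
  ext j k
  fin_cases i <;> fin_cases j <;> fin_cases k <;>
    simp [B, C, uu]

theorem B_sq (i : Fin 4) : B i * B i = 1 := by
  ext j k
  fin_cases i <;> fin_cases j <;> fin_cases k <;>
    simp [B, C, uu, Matrix.mul_apply, Fin.sum_univ_three] <;> norm_num

theorem B_det (i : Fin 4) : (B i).det = -1 := by
  fin_cases i <;>
    simp [B, C, uu, Matrix.det_fin_three] <;> norm_num

theorem Bp_orth (g : ℕ → Fin 4) (n : ℕ) : Bp g n * (Bp g n)ᵀ = 1 := by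
  induction n with
  | zero => simp [Bp]
  | succ n ih =>
    rw [Bp, transpose_mul, Matrix.mul_assoc, ← Matrix.mul_assoc (Bp g n), ih, Matrix.one_mul,
      B_symm, B_sq]

theorem Bp_det (g : ℕ → Fin 4) (n : ℕ) : (Bp g n).det = (-1) ^ n := by
  induction n with
  | zero => simp [Bp]
  | succ n ih => rw [Bp, det_mul, ih, B_det, pow_succ]; ring

/-- An orthogonal `3 × 3` matrix of determinant `-1` with a non-zero fixed vector has trace `1`. -/
theorem trace_eq_one (R : Matrix (Fin 3) (Fin 3) ℝ) (h1 : R * Rᵀ = 1) (h2 : R.det = -1)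
    (y : Fin 3 → ℝ) (hy : y ≠ 0) (h3 : R *ᵥ y = y) : R.trace = 1 := by
  have hadj : R.adjugate = -Rᵀ := by
    have e1 : R.adjugate = R.adjugate * (R * Rᵀ) := by rw [h1, Matrix.mul_one]
    rw [e1, ← Matrix.mul_assoc, adjugate_mul, h2]
    simp
  have hdet : (R - 1).det = 0 := by
    rw [← Matrix.exists_mulVec_eq_zero_iff]
    exact ⟨y, hy, by rw [Matrix.sub_mulVec, h3, Matrix.one_mulVec, sub_self]⟩
  have a0 := congrFun (congrFun hadj 0) 0
  have a1 := congrFun (congrFun hadj 1) 1
  have a2 := congrFun (congrFun hadj 2) 2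
  rw [Matrix.adjugate_fin_three] at a0 a1 a2
  simp at a0 a1 a2
  rw [Matrix.det_fin_three] at hdet h2
  simp at hdet
  rw [Matrix.trace_fin_three]
  linarith

/-! ### Reduction modulo three -/

theorem C_mod (i : Fin 4) :
    (C i).map (Int.cast : ℤ → ZMod 3) =
      vecMulVec (fun j => ((uu i j : ℤ) : ZMod 3)) (fun j => ((uu i j : ℤ) : ZMod 3)) := by
  ext j k
  simp only [Matrix.map_apply, vecMulVec_apply, C, Matrix.of_apply]
  revert i j k
  decide

theorem map_mul_mod (X Y : Matrix (Fin 3) (Fin 3) ℤ) :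
    (X * Y).map (Int.cast : ℤ → ZMod 3) = X.map Int.cast * Y.map Int.cast := by
  ext i j
  simp [Matrix.mul_apply]

theorem uu_dot (i j : Fin 4) (h : i ≠ j) :
    (fun k => ((uu i k : ℤ) : ZMod 3)) ⬝ᵥ (fun k => ((uu j k : ℤ) : ZMod 3)) = -1 := by
  revert i j
  decide

theorem Cp_mod (g : ℕ → Fin 4) (n : ℕ) (h : ∀ k, k < n → g k ≠ g (k + 1)) :
    (Cp g (n + 1)).map (Int.cast : ℤ → ZMod 3) =
      (-1 : ZMod 3) ^ n • vecMulVec (fun j => ((uu (g n) j : ℤ) : ZMod 3))
        (fun j => ((uu (g 0) j : ℤ) : ZMod 3)) := by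
  induction n with
  | zero => simp [Cp, C_mod]
  | succ n ih =>
    rw [Cp, map_mul_mod, ih (fun k hk => h k (by omega)), C_mod, Matrix.mul_smul,
      vecMulVec_mul_vecMulVec, uu_dot _ _ (h n (by omega)).symm, pow_succ]
    ext a b
    simp [vecMulVec_apply]

theorem Cp_trace_ne (g : ℕ → Fin 4) (n : ℕ) (h : ∀ k, k < n → g k ≠ g (k + 1))
    (h0 : g n ≠ g 0) : (Cp g (n + 1)).trace ≠ 3 ^ (n + 1) := by
  intro he
  have h1 : ((Cp g (n + 1)).map (Int.cast : ℤ → ZMod 3)).trace = 0 := by
    have h2 : ((Cp g (n + 1)).map (Int.cast : ℤ → ZMod 3)).trace =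
        (((Cp g (n + 1)).trace : ℤ) : ZMod 3) := by
      simp [Matrix.trace]
    rw [h2, he]
    push_cast
    rw [show (3 : ZMod 3) = 0 from rfl]
    simp
  rw [Cp_mod g n h, Matrix.trace_smul, Matrix.trace_vecMulVec, uu_dot _ _ h0] at h1
  rcases neg_one_pow_eq_or (ZMod 3) n with h2 | h2 <;> rw [h2] at h1 <;> revert h1 <;> decide

/-! ### Geometry of the tetrahedron -/

/-- A (non-unit) normal of the face opposite to the vertex `p i`. -/
noncomputable def NN (p : Fin 4 → E3) (i : Fin 4) : E3 := (4 : ℝ) • p i - ∑ j, p j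

theorem sum_NN (p : Fin 4 → E3) : NN p 0 + NN p 1 + NN p 2 + NN p 3 = 0 := by
  simp only [NN, Fin.sum_univ_four]
  module

theorem NN_sub (p : Fin 4 → E3) (i j : Fin 4) : NN p i - NN p j = (4 : ℝ) • (p i - p j) := by
  simp only [NN]
  module

theorem gram {p : Fin 4 → E3} {a : ℝ} (h : ∀ i j, i ≠ j → dist (p i) (p j) = a) (i j : Fin 4) :
    inner ℝ (NN p i) (NN p j) = if i = j then 6 * a ^ 2 else -2 * a ^ 2 := by
  have hd : ∀ i j, i ≠ j → inner ℝ (NN p i) (NN p i) + inner ℝ (NN p j) (NN p j) -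
      2 * inner ℝ (NN p i) (NN p j) = 16 * a ^ 2 := by
    intro i j hij
    have h1 : ‖NN p i - NN p j‖ ^ 2 = 16 * a ^ 2 := by
      rw [NN_sub, norm_smul, ← dist_eq_norm, h i j hij, mul_pow]
      norm_num
    rw [norm_sub_sq_real, ← real_inner_self_eq_norm_sq, ← real_inner_self_eq_norm_sq] at h1
    linarith
  have hs : ∀ i, inner ℝ (NN p i) (NN p 0) + inner ℝ (NN p i) (NN p 1) +
      inner ℝ (NN p i) (NN p 2) + inner ℝ (NN p i) (NN p 3) = 0 := by
    intro i
    rw [← inner_add_right, ← inner_add_right, ← inner_add_right, sum_NN, inner_zero_right]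
  have hc : ∀ i j, inner ℝ (NN p i) (NN p j) = inner ℝ (NN p j) (NN p i) :=
    fun i j => real_inner_comm _ _
  have d01 := hd 0 1 (by decide)
  have d02 := hd 0 2 (by decide)
  have d03 := hd 0 3 (by decide)
  have d12 := hd 1 2 (by decide)
  have d13 := hd 1 3 (by decide)
  have d23 := hd 2 3 (by decide)
  have s0 := hs 0
  have s1 := hs 1
  have s2 := hs 2
  have s3 := hs 3
  have c01 := hc 0 1
  have c02 := hc 0 2
  have c03 := hc 0 3
  have c12 := hc 1 2
  have c13 := hc 1 3
  have c23 := hc 2 3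
  have n0 := real_inner_self_eq_norm_sq (NN p 0)
  have n1 := real_inner_self_eq_norm_sq (NN p 1)
  have n2 := real_inner_self_eq_norm_sq (NN p 2)
  have n3 := real_inner_self_eq_norm_sq (NN p 3)
  fin_cases i <;> fin_cases j <;> simp <;> linarith

theorem inner_NN_p {p : Fin 4 → E3} {a : ℝ} (h : ∀ i j, i ≠ j → dist (p i) (p j) = a)
    (i j : Fin 4) : inner ℝ (NN p i) (p j) =
      inner ℝ (NN p i) (p i) - (if i = j then 0 else 2 * a ^ 2) := by
  have h1 : inner ℝ (NN p i) (NN p i - NN p j) = 4 * inner ℝ (NN p i) (p i - p j) := by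
    rw [NN_sub, inner_smul_right]
  rw [inner_sub_right, inner_sub_right, gram h, gram h] at h1
  by_cases hij : i = j
  · subst hij
    simp
  · rw [if_neg hij]
    rw [if_neg hij] at h1
    simp only [if_true] at h1
    linarith

/-- The barycentric coordinates are determined by the inner products with the normals. -/
theorem inner_NN_comb {p : Fin 4 → E3} {a : ℝ} (h : ∀ i j, i ≠ j → dist (p i) (p j) = a)
    (i : Fin 4) (w : Fin 4 → ℝ) (hw : ∑ j, w j = 1) :
    inner ℝ (NN p i) (∑ j, w j • p j) =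
      inner ℝ (NN p i) (p i) - 2 * a ^ 2 + 2 * a ^ 2 * w i := by
  have h1 : inner ℝ (NN p i) (∑ j, w j • p j) =
      ∑ j, w j * (inner ℝ (NN p i) (p i) - (if i = j then 0 else 2 * a ^ 2)) := by
    rw [inner_sum]
    apply Finset.sum_congr rfl
    intro j _
    rw [inner_smul_right, inner_NN_p h]
  have h2 : ∑ j, w j * (inner ℝ (NN p i) (p i) - (if i = j then 0 else 2 * a ^ 2)) =
      ∑ j, (w j * (inner ℝ (NN p i) (p i) - 2 * a ^ 2) + if i = j then 2 * a ^ 2 * w j else 0) := by
    apply Finset.sum_congr rfl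
    intro j _
    split_ifs <;> ring
  rw [h1, h2, Finset.sum_add_distrib, ← Finset.sum_mul, hw, Finset.sum_ite_eq]
  simp

theorem face_iff {p : Fin 4 → E3} {a : ℝ} (ha : 0 < a)
    (h : ∀ i j, i ≠ j → dist (p i) (p j) = a) (i m : Fin 4) (x : E3) (hx : x ∈ faceInterior p m) :
    inner ℝ (NN p i) x = inner ℝ (NN p i) (p i) - 2 * a ^ 2 ↔ m = i := by
  obtain ⟨w, hw0, hwp, hw1, rfl⟩ := hx
  rw [inner_NN_comb h i w hw1]
  constructor
  · intro he
    by_contra hne
    have h1 := hwp i (fun he => hne he.symm)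
    have h2 : 0 < 2 * a ^ 2 * w i := by positivity
    linarith
  · rintro rfl
    rw [hw0]
    ring

theorem unitNormal {p : Fin 4 → E3} {a : ℝ} (ha : 0 < a)
    (h : ∀ i j, i ≠ j → dist (p i) (p j) = a) (i : Fin 4) :
    IsUnitNormal p i ((Real.sqrt (6 * a ^ 2))⁻¹ • NN p i) := by
  have h6 : 0 < 6 * a ^ 2 := by positivity
  have hsq := Real.sqrt_pos.2 h6
  constructor
  · rw [norm_smul, norm_inv, Real.norm_of_nonneg hsq.le]
    have h1 : ‖NN p i‖ = Real.sqrt (6 * a ^ 2) := by
      have h2 := gram h i i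
      rw [real_inner_self_eq_norm_sq] at h2
      simp only [if_true] at h2
      rw [← h2, Real.sqrt_sq (norm_nonneg _)]
    rw [h1]
    exact inv_mul_cancel₀ hsq.ne'
  · intro j k hj hk
    rw [real_inner_smul_left, inner_sub_right, inner_NN_p h i j, inner_NN_p h i k,
      if_neg (Ne.symm hj), if_neg (Ne.symm hk)]
    simp

/-- The reflection law in terms of the normals `NN`. -/
theorem reflect_NN {p : Fin 4 → E3} {a : ℝ} (ha : 0 < a)
    (h : ∀ i j, i ≠ j → dist (p i) (p j) = a) (i : Fin 4) (v v' : E3)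
    (hr : ∀ n, IsUnitNormal p i n → v' = v - (2 * inner ℝ v n) • n) :
    v' = v - (inner ℝ v (NN p i) / (3 * a ^ 2)) • NN p i := by
  rw [hr _ (unitNormal ha h i), inner_smul_right, smul_smul]
  congr 2
  have h6 : 0 < 6 * a ^ 2 := by positivity
  have hsq := Real.sqrt_pos.2 h6
  have hsq2 := Real.mul_self_sqrt h6.le
  set r := Real.sqrt (6 * a ^ 2) with hr
  have h3 : 3 * a ^ 2 = r * r / 2 := by linarith
  rw [h3]
  field_simp

/-- Coordinates of a vector in the orthogonal basis `(NN 0 + NN k) / 2`, `k = 1, 2, 3`. -/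
noncomputable def co (p : Fin 4 → E3) (v : E3) : Fin 3 → ℝ :=
  ![(inner ℝ v (NN p 0) + inner ℝ v (NN p 1)) / 2, (inner ℝ v (NN p 0) + inner ℝ v (NN p 2)) / 2,
    (inner ℝ v (NN p 0) + inner ℝ v (NN p 3)) / 2]

theorem co_reflect {p : Fin 4 → E3} {a : ℝ} (ha : 0 < a)
    (h : ∀ i j, i ≠ j → dist (p i) (p j) = a) (i : Fin 4) (v v' : E3)
    (hr : ∀ n, IsUnitNormal p i n → v' = v - (2 * inner ℝ v n) • n) :
    co p v' = B i *ᵥ co p v := by
  have ha2 : a ^ 2 ≠ 0 := by positivity
  have h1 : ∀ k, inner ℝ v' (NN p k) =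
      inner ℝ v (NN p k) - inner ℝ v (NN p i) * (if i = k then 2 else -(2 / 3)) := by
    intro k
    rw [reflect_NN ha h i v v' hr, inner_sub_left, real_inner_smul_left, gram h]
    split_ifs
    · field_simp
      ring
    · field_simp
  have h2 : inner ℝ v (NN p 0) + inner ℝ v (NN p 1) + inner ℝ v (NN p 2) +
      inner ℝ v (NN p 3) = 0 := by
    rw [← inner_add_right, ← inner_add_right, ← inner_add_right, sum_NN, inner_zero_right]
  have e3 : inner ℝ v (NN p 3) =
      -(inner ℝ v (NN p 0) + inner ℝ v (NN p 1) + inner ℝ v (NN p 2)) := by linarith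
  ext k
  simp only [co, h1, Matrix.mulVec, dotProduct, Fin.sum_univ_three]
  fin_cases i <;> fin_cases k <;> simp [B, C, uu] <;> linarith

theorem co_ne_zero {p : Fin 4 → E3} {a : ℝ} (ha : 0 < a)
    (h : ∀ i j, i ≠ j → dist (p i) (p j) = a) (v : E3) (hv : v ≠ 0) : co p v ≠ 0 := by
  intro h0
  have h2 : inner ℝ v (NN p 0) + inner ℝ v (NN p 1) + inner ℝ v (NN p 2) +
      inner ℝ v (NN p 3) = 0 := by
    rw [← inner_add_right, ← inner_add_right, ← inner_add_right, sum_NN, inner_zero_right]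
  have c0 := congrFun h0 0
  have c1 := congrFun h0 1
  have c2 := congrFun h0 2
  simp [co] at c0 c1 c2
  have y0 : inner ℝ v (NN p 0) = 0 := by linarith
  have y1 : inner ℝ v (NN p 1) = 0 := by linarith
  have y2 : inner ℝ v (NN p 2) = 0 := by linarith
  -- `NN 0 + NN 1`, `NN 0 + NN 2`, `NN 1 + NN 2` form an orthogonal basis
  let G : Fin 3 → E3 := ![NN p 0 + NN p 1, NN p 0 + NN p 2, NN p 1 + NN p 2]
  have g : ∀ i j, inner ℝ (NN p i) (NN p j) = if i = j then 6 * a ^ 2 else -2 * a ^ 2 := gram h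
  have ha2 : 0 < a ^ 2 := by positivity
  have hG : ∀ i j, inner ℝ (G i) (G j) = if i = j then 8 * a ^ 2 else 0 := by
    have key : ∀ b c d e, inner ℝ (NN p b + NN p c) (NN p d + NN p e) =
        (if b = d then 6 * a ^ 2 else -2 * a ^ 2) + (if b = e then 6 * a ^ 2 else -2 * a ^ 2) +
        ((if c = d then 6 * a ^ 2 else -2 * a ^ 2) + (if c = e then 6 * a ^ 2 else -2 * a ^ 2)) := by
      intro b c d e
      rw [inner_add_left, inner_add_right, inner_add_right, g, g, g, g]
    intro i j
    fin_cases i <;> fin_cases j <;> refine (key _ _ _ _).trans ?_ <;> simp <;> ring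
  have hli : LinearIndependent ℝ G := by
    apply linearIndependent_of_ne_zero_of_inner_eq_zero
    · intro i hi
      have h3 := hG i i
      rw [hi, inner_zero_left] at h3
      simp only [if_true] at h3
      linarith
    · intro i j hij
      rw [hG, if_neg hij]
  have hspan := hli.span_eq_top_of_card_eq_finrank' (by simp)
  have hmem : v ∈ Submodule.span ℝ (Set.range G) := by rw [hspan]; trivial
  have hzero : ∀ x ∈ Submodule.span ℝ (Set.range G), inner ℝ v x = 0 := by
    intro x hx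
    induction hx using Submodule.span_induction with
    | mem x hx =>
      obtain ⟨i, rfl⟩ := hx
      fin_cases i <;> simp [G, inner_add_right, y0, y1, y2]
    | zero => simp
    | add x y _ _ hx hy => rw [inner_add_right, hx, hy, add_zero]
    | smul c x _ hx => rw [inner_smul_right, hx, mul_zero]
  exact hv (inner_self_eq_zero.1 (hzero v hmem))

/-! ### Trajectories -/

section
variable {p : Fin 4 → E3} {a : ℝ} {f : ℕ → Fin 4} {q v : ℕ → E3}

/-- If the velocity is parallel to the face of the bounce, the trajectory stays in this face. -/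
theorem flat_step (ha : 0 < a) (h : ∀ i j, i ≠ j → dist (p i) (p j) = a)
    (ht : IsTrajectory p f q v) (k : ℕ) (i : Fin 4) (h1 : f k = i)
    (h2 : inner ℝ (v k) (NN p i) = 0) : f (k + 1) = i ∧ v (k + 1) = v k := by
  obtain ⟨t, _, hq⟩ := ht.straight k
  have h3 : f (k + 1) = i := by
    rw [← face_iff ha h i (f (k + 1)) _ (ht.bounce (k + 1)), hq, inner_add_right,
      inner_smul_right, real_inner_comm (v k), h2, mul_zero, add_zero,
      face_iff ha h i (f k) _ (ht.bounce k)]
    exact h1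
  refine ⟨h3, ?_⟩
  rw [reflect_NN ha h i (v k) (v (k + 1)) (fun n hn => ht.reflect k n (by rwa [h3])), h2]
  simp

theorem flat_all (ha : 0 < a) (h : ∀ i j, i ≠ j → dist (p i) (p j) = a)
    (ht : IsTrajectory p f q v) (k : ℕ) (i : Fin 4) (h1 : f k = i)
    (h2 : inner ℝ (v k) (NN p i) = 0) (m : ℕ) :
    f (k + m) = i ∧ v (k + m) = v k ∧ inner ℝ (q k) (v k) + m • (0 : ℝ) ≤ inner ℝ (q (k + m)) (v k) ∧
      (1 ≤ m → inner ℝ (q k) (v k) < inner ℝ (q (k + m)) (v k)) := by
  induction m with
  | zero => simp [h1]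
  | succ m ih =>
    obtain ⟨a1, a2, a3, _⟩ := ih
    obtain ⟨b1, b2⟩ := flat_step ha h ht (k + m) i a1 (by rw [a2]; exact h2)
    have hlt : inner ℝ (q (k + m)) (v k) < inner ℝ (q (k + (m + 1))) (v k) := by
      obtain ⟨t, ht0, hq⟩ := ht.straight (k + m)
      rw [← add_assoc, hq, a2, inner_add_left, real_inner_smul_left, real_inner_self_eq_norm_sq,
        ht.unit k]
      linarith
    simp only [smul_zero, add_zero] at a3 ⊢
    exact ⟨b1, by rw [← add_assoc, b2, a2], a3.trans hlt.le, fun _ => a3.trans_lt hlt⟩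

/-- Consecutive bounces of a closed trajectory are on different faces. -/
theorem consecutive_ne (ha : 0 < a) (h : ∀ i j, i ≠ j → dist (p i) (p j) = a)
    (ht : IsTrajectory p f q v) (n : ℕ) (hn : 1 ≤ n) (hq : q n = q 0) (hv : v n = v 0)
    (k : ℕ) (hk : k < n) : f k ≠ f (k + 1) := by
  intro he
  obtain ⟨t, ht0, hqk⟩ := ht.straight k
  have h0 : inner ℝ (NN p (f k)) (v k) = 0 := by
    have h1 := (face_iff ha h (f k) (f k) _ (ht.bounce k)).2 rfl
    have h2 := (face_iff ha h (f k) (f (k + 1)) _ (ht.bounce (k + 1))).2 he.symm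
    rw [hqk, inner_add_right, h1, inner_smul_right] at h2
    have h3 : t * inner ℝ (NN p (f k)) (v k) = 0 := by linarith
    exact (mul_eq_zero.1 h3).resolve_left ht0.ne'
  obtain ⟨a1, a2, _, _⟩ := flat_all ha h ht k (f k) rfl (by rw [real_inner_comm]; exact h0) (n - k)
  rw [show k + (n - k) = n by omega] at a1 a2
  have hf0 : f 0 = f k := by
    rw [← face_iff ha h (f k) (f 0) _ (ht.bounce 0), ← hq]
    exact (face_iff ha h (f k) (f n) _ (ht.bounce n)).2 a1
  obtain ⟨_, _, _, b4⟩ := flat_all ha h ht 0 (f k) hf0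
    (by rw [← hv, a2, real_inner_comm]; exact h0) n
  have b5 := b4 hn
  rw [zero_add, hq] at b5
  exact lt_irrefl _ b5

theorem co_orbit (ha : 0 < a) (h : ∀ i j, i ≠ j → dist (p i) (p j) = a)
    (ht : IsTrajectory p f q v) (n : ℕ) :
    co p (v n) = Bp (fun k => f (k + 1)) n *ᵥ co p (v 0) := by
  induction n with
  | zero => simp [Bp]
  | succ n ih =>
    rw [co_reflect ha h (f (n + 1)) (v n) (v (n + 1)) (ht.reflect n), ih, Matrix.mulVec_mulVec, Bp]

end

/-- Every periodic billiard orbit in a regular tetrahedron has an even number of bounces: if a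
trajectory returns to its initial point with its initial velocity after `n ≥ 1` bounces, then `n` is
even. -/
theorem result (p : Fin 4 → E3) (hp : IsRegularTetrahedron p) (f : ℕ → Fin 4) (q v : ℕ → E3)
    (ht : IsTrajectory p f q v) (n : ℕ) (hn : 1 ≤ n) (hq : q n = q 0) (hv : v n = v 0) :
    Even n := by
  obtain ⟨a, ha, h⟩ := hp
  by_contra hodd
  rw [Nat.not_even_iff_odd] at hodd
  obtain ⟨m, rfl⟩ : ∃ m, n = m + 1 := ⟨n - 1, by omega⟩
  set g : ℕ → Fin 4 := fun k => f (k + 1) with hg
  have hf : f (m + 1) = f 0 := by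
    have h1 := (face_iff ha h (f 0) (f 0) _ (ht.bounce 0)).2 rfl
    rw [← hq] at h1
    exact (face_iff ha h (f 0) (f (m + 1)) _ (ht.bounce (m + 1))).1 h1
  have hfix : Bp g (m + 1) *ᵥ co p (v 0) = co p (v 0) := by
    rw [← co_orbit ha h ht (m + 1), hv]
  have hv0 : v 0 ≠ 0 := by
    intro h0
    have := ht.unit 0
    rw [h0, norm_zero] at this
    exact zero_ne_one this
  have htr := trace_eq_one (Bp g (m + 1)) (Bp_orth g _)
    (by rw [Bp_det, hodd.neg_one_pow]) _ (co_ne_zero ha h _ hv0) hfix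
  have h3 : ((Cp g (m + 1)).trace : ℝ) = 3 ^ (m + 1) := by
    have h4 : ((Cp g (m + 1)).trace : ℝ) = ((Cp g (m + 1)).map (Int.cast : ℤ → ℝ)).trace := by
      simp [Matrix.trace]
    rw [h4, ← Bp_eq, Matrix.trace_smul, htr]
    simp
  apply Cp_trace_ne g m
  · intro k hk
    exact consecutive_ne ha h ht (m + 1) hn hq hv (k + 1) (by omega)
  · show f (m + 1) ≠ f 1
    rw [hf]
    exact consecutive_ne ha h ht (m + 1) hn hq hv 0 (by omega)
  · exact_mod_cast h3

end Pool.Agent.Results.MP_aceab8_an.EvenNumberOfBounces
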